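import Mathlib
import Pool.Agent.H929R2.UniDefs
import Pool.Agent.H929R2.Upper
import Pool.Agent.H929R2.Lower4

set_option autoImplicit false

namespace Pool.Agent.Results.MP_8f100c_ag.ExactValue

open Pool.Agent.H929R2.Uni

/-- For every `d ≥ 1`, the least `n` such that `ℙⁿ` over the complex numbers contains a smooth
unirational hypersurface of degree `d` is `n = d`. -/
theorem result (d : ℕ) (hd : 1 ≤ d) :
    IsLeast {n : ℕ | ∃ F : MvPolynomial (Fin (n + 1)) ℂ,
      IsSmoothHypersurface n d F ∧ IsUnirational F} d :=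
  ⟨Pool.Agent.H929R2.upper d hd, fun _ ⟨F, hF, hU⟩ => Pool.Agent.H929R2.lower F hF hU⟩

end Pool.Agent.Results.MP_8f100c_ag.ExactValue
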